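import Pool.Agent.TH47.Lev.Recon

/-!
# MP_d1780f_co, the case `d = 4`, `i = 2`

The space of affine 2-stresses of a simplicial 4-polytope without missing faces of dimension at
least 3 determines the polytope up to affine equivalence (the case `d = 4` of a conjecture of
Kalai). The definitions are in `Pool.Agent.TH47.Lev.Defs` and `Pool.Agent.TH47.Lev.Recon`.

An affine 2-stress is a quadratic form, with all monomials supported on faces of the boundary
complex (squares of variables are allowed, as usual in the definition of affine stresses),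
annihilated by `∑ ∂/∂x_v` and `∑ p(v)_k ∂/∂x_v`.
-/

namespace Pool.Agent.Results.MP_d1780f_co.TwoStressesDimFour

open MvPolynomial Pool.Agent.TH47

/-- Let `P` be a simplicial 4-polytope with vertices `p v`, all of whose missing faces have at
most 3 vertices. (1) If `q v` are any points of `ℝ^m` such that every affine 2-stress `u` of `P`
satisfies `∑ q(v)_k ∂u/∂x_v = 0` for all `k`, then `q` is the image of `p` under an affine map.
(2) If `Q` is a simplicial 4-polytope with vertices `q v` such that every affine 2-stress of `P`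
is an affine 2-stress of `Q` (for example, if the two spaces are equal), then some invertible
affine map takes every `p v` to `q v`. -/
theorem result {n : ℕ} (p : Fin n → (Fin 4 → ℝ)) (hP : Lev.IsSimplicialPolytope p)
    (hS : ∀ S : Finset (Fin n), Lev.IsMissingFace p S → S.card ≤ 3) :
    (∀ (m : ℕ) (q : Fin n → (Fin m → ℝ)),
      (∀ u, Lev.IsAffineStress 2 p u → ∀ k, ∑ v, C (q v k) * pderiv v u = 0) →
      ∃ A : (Fin 4 → ℝ) →ᵃ[ℝ] (Fin m → ℝ), ∀ v, A (p v) = q v) ∧
    (∀ q : Fin n → (Fin 4 → ℝ), Lev.IsSimplicialPolytope q →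
      (∀ u, Lev.IsAffineStress 2 p u → Lev.IsAffineStress 2 q u) →
      ∃ A : (Fin 4 → ℝ) ≃ᵃ[ℝ] (Fin 4 → ℝ), ∀ v, A (p v) = q v) :=
  ⟨fun _ q hq => Lev.affine_map_of_stress hP hS q hq,
    fun _ hQ hq => Lev.affine_equiv_of_stress hP hQ hS hq⟩

end Pool.Agent.Results.MP_d1780f_co.TwoStressesDimFour
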